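import Pool.Agent.helper76.MC.Defs
import Pool.Agent.helper92.QR.SD

/-! # Project MC, module Z: the component of conductor four -/

namespace Pool.Agent.helper76.MC

open Finset Pool.Agent.helper34.DH Pool.Agent.helper76.FV Pool.Agent.helper76.LP
open Pool.Agent.helper76.UR
open Matrix (SpecialLinearGroup)

/-- the sum of the sawtooth against the character of conductor `4` -/
def Z_W (m : ℕ) [NeZero m] (x : ZMod m) : ℤ :=
  ∑ t : (ZMod m)ˣ, ZMod.χ₄ (((t : ZMod m).val : ℕ) : ZMod 4) * saw m ((t : ZMod m) * x)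

lemma Z_chi_cast (m : ℕ) [NeZero m] (x : ZMod m) (h4 : 4 ∣ m) :
    (((x : ZMod m).val : ℕ) : ZMod 4) = ZMod.castHom h4 (ZMod 4) x := by
  rw [ZMod.natCast_val, ZMod.castHom_apply]

lemma Z_saw_neg (m : ℕ) [NeZero m] (x : ZMod m) : saw m (-x) = - saw m x := by
  unfold saw
  by_cases h : x = 0
  · simp [h]
  · have h' : -x ≠ 0 := neg_ne_zero.2 h
    rw [if_neg h, if_neg h', ZMod.neg_val, if_neg h]
    have := (ZMod.val_lt x).le
    push_cast [Nat.cast_sub this]
    ring

lemma Z_W_neg (m : ℕ) [NeZero m] (x : ZMod m) : Z_W m (-x) = - Z_W m x := by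
  unfold Z_W
  rw [← Finset.sum_neg_distrib]
  apply Finset.sum_congr rfl
  intro t _
  rw [mul_neg, Z_saw_neg]
  ring

lemma Z_W_unit (m : ℕ) [NeZero m] (h4 : 4 ∣ m) (u : (ZMod m)ˣ) (x : ZMod m) :
    Z_W m x = ZMod.χ₄ (((u : ZMod m).val : ℕ) : ZMod 4) * Z_W m ((u : ZMod m) * x) := by
  unfold Z_W
  rw [Finset.mul_sum, ← Equiv.sum_comp (Equiv.mulRight u)]
  apply Finset.sum_congr rfl
  intro t _
  rw [Equiv.coe_mulRight, Units.val_mul, Z_chi_cast m _ h4, Z_chi_cast m _ h4, Z_chi_cast m _ h4,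
    _root_.map_mul, _root_.map_mul, mul_assoc (t : ZMod m)]
  ring

lemma Z_G4 (m : ℕ) [NeZero m] (c : ZMod m → ℤ) : G4 m c = ∑ x, anti c x * Z_W m x := by
  unfold G4 Z_W
  simp_rw [Finset.mul_sum]
  rw [Finset.sum_comm]
  apply Finset.sum_congr rfl
  intro x _
  apply Finset.sum_congr rfl
  intro t _
  ring

lemma Z_G4' (m : ℕ) [NeZero m] (c : ZMod m → ℤ) : G4 m c = 2 * ∑ x, c x * Z_W m x := by
  rw [Z_G4]
  unfold anti
  simp_rw [sub_mul]
  rw [Finset.sum_sub_distrib]
  have h2 : ∑ x, c (-x) * Z_W m x = - ∑ x, c x * Z_W m x := by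
    rw [← Equiv.sum_comp (Equiv.neg (ZMod m)), ← Finset.sum_neg_distrib]
    apply Finset.sum_congr rfl
    intro x _
    rw [Equiv.neg_apply, neg_neg, Z_W_neg]
    ring
  rw [h2]; ring

lemma Z_crt (m a b : ℕ) (hab : a.Coprime b) (h : a * b = m) (r s : ℕ)
    (hr : r.Coprime a) (hs : s.Coprime b) :
    ∃ n : ℕ, n ≡ r [MOD a] ∧ n ≡ s [MOD b] ∧ n.Coprime m := by
  obtain ⟨n, h1, h2⟩ := Nat.chineseRemainder hab r s
  refine ⟨n, h1, h2, ?_⟩
  rw [← h]
  apply Nat.Coprime.mul_right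
  · unfold Nat.Coprime at hr ⊢
    rw [h1.gcd_eq, hr]
  · unfold Nat.Coprime at hs ⊢
    rw [h2.gcd_eq, hs]

lemma Z_act (m b : ℕ) (x : ZMod m) (hb : (b : ZMod m) * x = 0) (n s : ℕ) (h : n ≡ s [MOD b]) :
    (n : ZMod m) * x = (s : ZMod m) * x := by
  obtain ⟨k, hk⟩ := (Nat.modEq_iff_dvd.1 h)
  have h1 : ((s : ZMod m) - (n : ZMod m)) = (b : ZMod m) * (k : ZMod m) := by
    have := congrArg (fun z : ℤ => (z : ZMod m)) hk
    push_cast at this
    exact this
  have h2 : ((s : ZMod m) - (n : ZMod m)) * x = 0 := by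
    rw [h1, mul_right_comm, hb, zero_mul]
  rw [sub_mul, sub_eq_zero] at h2
  exact h2.symm

lemma Z_chi_nat (m : ℕ) [NeZero m] (h4 : 4 ∣ m) (n : ℕ) (hn : n.Coprime m) :
    (((ZMod.unitOfCoprime n hn : (ZMod m)ˣ) : ZMod m).val : ZMod 4) = ((n : ℕ) : ZMod 4) := by
  rw [ZMod.coe_unitOfCoprime, Z_chi_cast m _ h4, map_natCast]

/-- the function vanishes at the elements of odd order -/
lemma Z_W_odd (m a b : ℕ) [NeZero m] (h4 : 4 ∣ m) (hab : a.Coprime b) (h : a * b = m)
    (ha : 4 ∣ a) (h3 : Nat.Coprime 3 a) (x : ZMod m) (hx : (b : ZMod m) * x = 0) :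
    Z_W m x = 0 := by
  obtain ⟨n, h1, h2, hn⟩ := Z_crt m a b hab h 3 1 h3 (Nat.coprime_one_left b)
  have h5 := Z_W_unit m h4 (ZMod.unitOfCoprime n hn) x
  rw [Z_chi_nat m h4 n hn, ZMod.coe_unitOfCoprime, Z_act m b x hx n 1 h2, Nat.cast_one,
    one_mul] at h5
  have h6 : ((n : ℕ) : ZMod 4) = ((3 : ℕ) : ZMod 4) := by
    rw [ZMod.natCast_eq_natCast_iff]
    exact h1.of_dvd ha
  rw [h6] at h5
  have h7 : ZMod.χ₄ ((3 : ℕ) : ZMod 4) = -1 := by decide
  rw [h7] at h5
  linarith

lemma Z_vp_supp (m p b : ℕ) [NeZero m] (hp : 0 < p) (hpb : p ∣ b) (hb : b ∣ m) (y : ZMod m)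
    (hy : vp m p y ≠ 0) : (b : ZMod m) * y = 0 := by
  unfold vp at hy
  by_cases h0 : y = 0
  · rw [h0, mul_zero]
  · rw [if_neg h0, zero_add, Finset.card_ne_zero] at hy
    obtain ⟨k, hk⟩ := hy
    rw [Finset.mem_filter] at hk
    obtain ⟨_, _, _, hk⟩ := hk
    rw [← hk, ← Nat.cast_mul, ZMod.natCast_eq_zero_iff]
    obtain ⟨e, he⟩ := hpb
    obtain ⟨f, hf⟩ := hb
    subst he
    have h1 : m / p = e * f := by
      rw [hf, mul_assoc, Nat.mul_div_cancel_left _ hp]
    refine ⟨e * k, ?_⟩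
    rw [h1, hf]
    ring

lemma Z_pat_supp (m b : ℕ) [NeZero m] (hb : b ∣ m) (four : Bool) (h4 : four = true → 4 ∣ b)
    (R : List ℕ) (hR : ∀ q ∈ R, 0 < q ∧ q ∣ b) :
    ∀ x : ZMod m, pat m four R x ≠ 0 → (b : ZMod m) * x = 0 := by
  induction R with
  | nil =>
    intro x hx
    cases four with
    | false =>
      simp only [pat] at hx
      by_cases h : x = 0
      · rw [h, mul_zero]
      · simp [h] at hx
    | true =>
      simp only [pat, if_true] at hx
      unfold kp at hx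
      by_cases h : x = LP.emb 4 m 1
      · rw [h]
        unfold LP.emb
        have h5 := h4 rfl
        rw [← Nat.cast_mul, ZMod.natCast_eq_zero_iff]
        obtain ⟨e, he⟩ := h5
        obtain ⟨f, hf⟩ := hb
        subst he
        have h1 : m / 4 = e * f := by
          rw [hf, mul_assoc, Nat.mul_div_cancel_left _ (by norm_num)]
        have h2 : (1 : ZMod 4).val = 1 := rfl
        rw [h1, h2, hf]
        exact ⟨e, by ring⟩
      · rw [if_neg h] at hx
        exact absurd rfl hx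
  | cons p R ih =>
    intro x hx
    have ih' := ih (fun q hq => hR q (List.mem_cons_of_mem _ hq))
    simp only [pat] at hx
    unfold conv at hx
    obtain ⟨y, _, hy⟩ := Finset.exists_ne_zero_of_sum_ne_zero hx
    have h1 : vp m p y ≠ 0 := left_ne_zero_of_mul hy
    have h2 : pat m four R (x - y) ≠ 0 := right_ne_zero_of_mul hy
    obtain ⟨h3, h5⟩ := hR p List.mem_cons_self
    have h6 := Z_vp_supp m p b h3 h5 hb y h1
    have h7 := ih' _ h2
    rw [mul_sub, h6, sub_zero] at h7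
    exact h7

theorem pat_G4_false (m : ℕ) [NeZero m] (h4 : 4 ∣ m) (R : List ℕ)
    (hR : ∀ p ∈ R, p.Prime ∧ Odd p ∧ p ∣ m) :
    G4 m (fun x => ((pat m false R x : ℕ) : ℤ)) = 0 := by
  rw [Z_G4']
  have hm : m ≠ 0 := NeZero.ne m
  have h1 : 2 ^ m.factorization 2 * (m / 2 ^ m.factorization 2) = m :=
    Nat.ordProj_mul_ordCompl_eq_self m 2
  have h2 : Nat.Coprime (2 ^ m.factorization 2) (m / 2 ^ m.factorization 2) :=
    (Nat.coprime_ordCompl Nat.prime_two hm).pow_left _
  have h3 : 4 ∣ 2 ^ m.factorization 2 := by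
    have : 2 ≤ m.factorization 2 :=
      (Nat.prime_two.pow_dvd_iff_le_factorization hm).1 (by simpa using h4)
    exact (pow_dvd_pow 2 this)
  have hb : m / 2 ^ m.factorization 2 ∣ m := Dvd.intro_left _ h1
  have h5 : ∑ x, ((pat m false R x : ℕ) : ℤ) * Z_W m x = 0 := by
    apply Finset.sum_eq_zero
    intro x _
    by_cases hx : pat m false R x = 0
    · rw [hx]; simp
    · rw [Z_W_odd m _ _ h4 h2 h1 h3 (Nat.Coprime.pow_right _ (by norm_num)) x, mul_zero]
      apply Z_pat_supp m _ hb false (by simp) R _ x hx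
      intro q hq
      obtain ⟨hq1, hq2, hq3⟩ := hR q hq
      refine ⟨hq1.pos, ?_⟩
      have h6 : q ∣ 2 ^ m.factorization 2 * (m / 2 ^ m.factorization 2) := h1.symm ▸ hq3
      rcases (hq1.dvd_mul).1 h6 with h7 | h7
      · exfalso
        have h8 := hq1.dvd_of_dvd_pow h7
        rw [Nat.prime_dvd_prime_iff_eq hq1 Nat.prime_two] at h8
        rw [h8] at hq2
        exact absurd hq2 (by decide)
      · exact h7
  rw [h5, mul_zero]

/-! ### convolutions -/

lemma Z_conv_left_comm (m : ℕ) [NeZero m] (a b c : ZMod m → ℕ) :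
    conv a (conv b c) = conv b (conv a c) := by
  funext x
  unfold conv
  simp_rw [Finset.mul_sum]
  rw [Finset.sum_comm]
  apply Finset.sum_congr rfl
  intro y _
  apply Finset.sum_congr rfl
  intro z _
  rw [mul_left_comm, sub_right_comm]

lemma Z_pat_comm (m : ℕ) [NeZero m] (four : Bool) (p : ℕ) (R R' : List ℕ) :
    pat m four (R ++ p :: R') = conv (vp m p) (pat m four (R ++ R')) := by
  induction R with
  | nil => rfl
  | cons q R ih =>
    have h1 : pat m four (q :: R ++ p :: R') = conv (vp m q) (pat m four (R ++ p :: R')) := rfl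
    have h2 : pat m four (q :: R ++ R') = conv (vp m q) (pat m four (R ++ R')) := rfl
    rw [h1, h2, ih, Z_conv_left_comm]

lemma Z_sum_conv (m : ℕ) [NeZero m] (e e' : ZMod m → ℕ) (g : ZMod m → ℤ) :
    ∑ x, ((conv e e' x : ℕ) : ℤ) * g x = ∑ z, (e' z : ℤ) * ∑ y, (e y : ℤ) * g (z + y) := by
  unfold conv
  push_cast
  simp_rw [Finset.sum_mul, Finset.mul_sum]
  rw [Finset.sum_comm]
  conv_rhs => rw [Finset.sum_comm]
  apply Finset.sum_congr rfl
  intro y _
  rw [← Equiv.sum_comp (Equiv.addRight y)]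
  apply Finset.sum_congr rfl
  intro z _
  rw [Equiv.coe_addRight, add_sub_cancel_right]
  ring

/-- the nonzero squares modulo `p` -/
def Z_Q (p : ℕ) : Finset ℕ := (range p).filter (fun k => k ≠ 0 ∧ ∃ c ∈ range p, (c * c) % p = k)

lemma Z_sum_vp (m p : ℕ) [NeZero m] (g : ZMod m → ℤ) :
    ∑ y, ((vp m p y : ℕ) : ℤ) * g y = g 0 + ∑ k ∈ Z_Q p, g ((k * (m / p) : ℕ) : ZMod m) := by
  unfold vp Z_Q
  push_cast
  simp_rw [add_mul]
  rw [Finset.sum_add_distrib]
  congr 1
  · rw [Finset.sum_eq_single (0 : ZMod m)]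
    · simp
    · intro b _ hb; simp [hb]
    · intro h; exact absurd (Finset.mem_univ _) h
  · simp_rw [Finset.card_filter]
    push_cast
    simp_rw [Finset.sum_mul]
    rw [Finset.sum_comm, Finset.sum_filter]
    apply Finset.sum_congr rfl
    intro k hk
    by_cases h : k ≠ 0 ∧ ∃ c ∈ range p, (c * c) % p = k
    · rw [if_pos h]
      rw [Finset.sum_eq_single (((k * (m / p) : ℕ)) : ZMod m)]
      · rw [if_pos ⟨h.1, h.2, by push_cast; rfl⟩, one_mul]
        push_cast
        rfl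
      · intro b _ hb
        rw [if_neg, zero_mul]
        rintro ⟨_, _, h3⟩
        apply hb
        rw [← h3]
        push_cast
        rfl
      · intro h; exact absurd (Finset.mem_univ _) h
    · rw [if_neg h]
      apply Finset.sum_eq_zero
      intro y _
      rw [if_neg, zero_mul]
      rintro ⟨h1, h2, _⟩
      exact h ⟨h1, h2⟩

lemma Z_card_Q (p : ℕ) [Fact p.Prime] (hp : p ≠ 2) : 2 * ((Z_Q p).card : ℤ) = p - 1 := by
  classical
  have hp0 : 0 < p := (Fact.out : p.Prime).pos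
  have : NeZero p := ⟨hp0.ne'⟩
  have h1 : (Z_Q p).card =
      (univ.filter (fun a : ZMod p => quadraticChar (ZMod p) a = 1)).card := by
    apply Finset.card_nbij' (fun k : ℕ => (k : ZMod p)) (fun a : ZMod p => a.val)
    · intro k hk
      have hk' := Finset.mem_coe.1 hk
      unfold Z_Q at hk'
      rw [Finset.mem_filter, Finset.mem_range] at hk'
      obtain ⟨h2, h3, c, hc, h4⟩ := hk'
      rw [Finset.mem_coe, Finset.mem_filter]
      refine ⟨Finset.mem_univ _, ?_⟩
      have h5 : ((k : ℕ) : ZMod p) ≠ 0 := by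
        intro h
        rw [ZMod.natCast_eq_zero_iff] at h
        exact h3 (Nat.eq_zero_of_dvd_of_lt h h2)
      rw [quadraticChar_one_iff_isSquare h5]
      refine ⟨(c : ZMod p), ?_⟩
      rw [← h4, ← Nat.cast_mul, ZMod.natCast_mod]
    · intro a ha
      have ha' := Finset.mem_coe.1 ha
      rw [Finset.mem_filter] at ha'
      have h2 := ha'.2
      have h3 : a ≠ 0 := by
        rintro rfl
        rw [quadraticChar_zero] at h2
        exact absurd h2 (by norm_num)
      rw [quadraticChar_one_iff_isSquare h3] at h2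
      obtain ⟨c, hc⟩ := h2
      rw [Finset.mem_coe]
      unfold Z_Q
      rw [Finset.mem_filter, Finset.mem_range]
      refine ⟨ZMod.val_lt a, (ZMod.val_ne_zero a).2 h3, c.val, Finset.mem_range.2 (ZMod.val_lt c), ?_⟩
      rw [hc]
      exact (ZMod.val_mul c c).symm
    · intro k hk
      have hk' := Finset.mem_coe.1 hk
      unfold Z_Q at hk'
      rw [Finset.mem_filter, Finset.mem_range] at hk'
      simp only
      rw [ZMod.val_natCast, Nat.mod_eq_of_lt hk'.1]
    · intro a _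
      simp only
      rw [ZMod.natCast_zmod_val]
  have h2 : ∑ a : ZMod p, quadraticChar (ZMod p) a = 0 := by
    apply quadraticChar_sum_zero
    rw [ZMod.ringChar_zmod_n]
    exact hp
  rw [h1, Finset.card_filter]
  push_cast
  rw [Finset.mul_sum]
  have h3 : ∀ a : ZMod p, 2 * (if quadraticChar (ZMod p) a = 1 then (1 : ℤ) else 0) =
      1 + quadraticChar (ZMod p) a - (if a = 0 then 1 else 0) := by
    intro a
    by_cases ha : a = 0
    · subst ha
      rw [quadraticChar_zero]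
      norm_num
    · rw [if_neg ha]
      rcases quadraticChar_dichotomy ha with h | h
      · rw [h]; norm_num
      · rw [h]; norm_num
  rw [Finset.sum_congr rfl fun a _ => h3 a, Finset.sum_sub_distrib, Finset.sum_add_distrib, h2]
  simp

lemma Z_sum_W (m p : ℕ) [NeZero m] (hp : p.Prime) (hpm : p ∣ m) (z : ZMod m) :
    ∑ j ∈ range p, Z_W m (z + ((j * (m / p) : ℕ) : ZMod m)) = Z_W m ((p : ZMod m) * z) := by
  unfold Z_W
  rw [Finset.sum_comm]
  apply Finset.sum_congr rfl
  intro t _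
  rw [← Finset.mul_sum, saw_dist m p hp hpm t z]

lemma Z_key (m p a b : ℕ) [NeZero m] (hp : p.Prime) (hp3 : p % 4 = 3) (hab : a.Coprime b)
    (h : a * b = m) (ha : ∃ v, a = p ^ v) (hpa : p ∣ a) (hb : 4 ∣ b) (z : ZMod m)
    (hz : (b : ZMod m) * z = 0) :
    ∑ y, ((vp m p y : ℕ) : ℤ) * Z_W m (z + y) = 0 := by
  have h4 : 4 ∣ m := hb.trans (Dvd.intro_left a h)
  have hpm : p ∣ m := hpa.trans (Dvd.intro b h)
  have : Fact p.Prime := ⟨hp⟩
  have hp2 : p ≠ 2 := by rintro rfl; omega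
  have hpb : p.Coprime b := Nat.Coprime.coprime_dvd_left hpa hab
  -- multiplication by a unit
  have hq : (a : ZMod m) * (((m / p) : ℕ) : ZMod m) = 0 := by
    rw [← Nat.cast_mul, ZMod.natCast_eq_zero_iff]
    obtain ⟨c, hc⟩ := hpa
    obtain ⟨d, hd⟩ := hpm
    have h1 : m / p = d := by rw [hd]; exact Nat.mul_div_cancel_left _ hp.pos
    rw [h1, hc]
    refine ⟨c, ?_⟩
    rw [hd]; ring
  have h1 : ∀ j : ℕ, j ≠ 0 → j < p → Z_W m (z + ((j * (m / p) : ℕ) : ZMod m)) =
      Z_W m (z + (((m / p) : ℕ) : ZMod m)) := by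
    intro j hj hjp
    have hja : j.Coprime a := by
      obtain ⟨v, rfl⟩ := ha
      apply Nat.Coprime.pow_right
      exact (Nat.coprime_of_lt_prime hj hjp hp).symm
    obtain ⟨n, hn1, hn2, hn⟩ := Z_crt m a b hab h j 1 hja (Nat.coprime_one_left b)
    have h5 := Z_W_unit m h4 (ZMod.unitOfCoprime n hn) (z + (((m / p) : ℕ) : ZMod m))
    have h6 : ((n : ℕ) : ZMod 4) = ((1 : ℕ) : ZMod 4) := by
      rw [ZMod.natCast_eq_natCast_iff]
      exact hn2.of_dvd hb
    have h7 : ZMod.χ₄ ((1 : ℕ) : ZMod 4) = 1 := by decide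
    rw [Z_chi_nat m h4 n hn, h6, h7, one_mul, ZMod.coe_unitOfCoprime, mul_add,
      Z_act m b z hz n 1 hn2, Z_act m a _ hq n j hn1, Nat.cast_one, one_mul, ← Nat.cast_mul] at h5
    exact h5.symm
  have h2 : Z_W m ((p : ZMod m) * z) = - Z_W m z := by
    obtain ⟨n, hn1, hn2, hn⟩ := Z_crt m a b hab h 1 p (Nat.coprime_one_left a) hpb
    have h5 := Z_W_unit m h4 (ZMod.unitOfCoprime n hn) z
    have h6 : ((n : ℕ) : ZMod 4) = ((3 : ℕ) : ZMod 4) := by
      rw [ZMod.natCast_eq_natCast_iff]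
      refine (hn2.of_dvd hb).trans ?_
      unfold Nat.ModEq
      omega
    have h7 : ZMod.χ₄ ((3 : ℕ) : ZMod 4) = -1 := by decide
    rw [Z_chi_nat m h4 n hn, h6, h7, ZMod.coe_unitOfCoprime, Z_act m b z hz n p hn2] at h5
    linarith
  have h3 := Z_sum_W m p hp hpm z
  have h8 : ∑ j ∈ range p, Z_W m (z + ((j * (m / p) : ℕ) : ZMod m)) =
      Z_W m z + (p - 1) * Z_W m (z + (((m / p) : ℕ) : ZMod m)) := by
    obtain ⟨r, hr⟩ : ∃ r, p = r + 1 := ⟨p - 1, by have := hp.pos; omega⟩
    have h9 : ∀ j ∈ range r, Z_W m (z + (((j + 1) * (m / p) : ℕ) : ZMod m)) =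
        Z_W m (z + (((m / p) : ℕ) : ZMod m)) := by
      intro j hj
      apply h1 (j + 1) (by omega)
      have := Finset.mem_range.1 hj
      omega
    have h10 : range p = range (r + 1) := by rw [hr]
    rw [h10, Finset.sum_range_succ', Finset.sum_congr rfl h9, Finset.sum_const, Finset.card_range,
      nsmul_eq_mul, zero_mul, Nat.cast_zero, add_zero]
    have h11 : (p : ℤ) - 1 = r := by rw [hr]; push_cast; ring
    rw [h11]
    ring
  rw [h8, h2] at h3
  rw [Z_sum_vp m p (fun y => Z_W m (z + y)), add_zero]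
  have h12 : ∑ k ∈ Z_Q p, Z_W m (z + ((k * (m / p) : ℕ) : ZMod m)) =
      (Z_Q p).card * Z_W m (z + (((m / p) : ℕ) : ZMod m)) := by
    rw [Finset.sum_congr rfl (g := fun _ => Z_W m (z + (((m / p) : ℕ) : ZMod m))),
      Finset.sum_const, nsmul_eq_mul]
    intro k hk
    unfold Z_Q at hk
    rw [Finset.mem_filter, Finset.mem_range] at hk
    exact h1 k hk.2.1 hk.1
  rw [h12]
  have h13 := Z_card_Q p hp2
  have h14 : 2 * (Z_W m z + (Z_Q p).card * Z_W m (z + (((m / p) : ℕ) : ZMod m))) = 0 := by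
    have h15 : 2 * (Z_W m z + ((Z_Q p).card : ℤ) * Z_W m (z + (((m / p) : ℕ) : ZMod m))) =
      2 * Z_W m z + (2 * ((Z_Q p).card : ℤ)) * Z_W m (z + (((m / p) : ℕ) : ZMod m)) := by ring
    rw [h15, h13]
    linarith
  linarith

theorem pat_G4_true (m : ℕ) [NeZero m] (h4 : 4 ∣ m) (p : ℕ) (R R' : List ℕ) (hpR : p ∉ R ++ R')
    (hR : ∀ q ∈ R ++ p :: R', q.Prime ∧ q % 4 = 3 ∧ q ∣ m) :
    G4 m (fun x => ((pat m true (R ++ p :: R') x : ℕ) : ℤ)) = 0 := by
  rw [Z_G4']
  have hm : m ≠ 0 := NeZero.ne m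
  obtain ⟨hp, hp3, hpm⟩ := hR p (by simp)
  have hp2 : p ≠ 2 := by rintro rfl; omega
  have h1 : p ^ m.factorization p * (m / p ^ m.factorization p) = m :=
    Nat.ordProj_mul_ordCompl_eq_self m p
  have h2 : Nat.Coprime (p ^ m.factorization p) (m / p ^ m.factorization p) :=
    (Nat.coprime_ordCompl hp hm).pow_left _
  have h3 : p ∣ p ^ m.factorization p :=
    dvd_pow_self p (hp.factorization_pos_of_dvd hm hpm).ne'
  have hb4 : 4 ∣ m / p ^ m.factorization p := by
    have h5 : Nat.Coprime 4 (p ^ m.factorization p) := by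
      apply Nat.Coprime.pow_right
      have h6 : Nat.Coprime 2 p := (Nat.coprime_primes Nat.prime_two hp).2 hp2.symm
      exact Nat.Coprime.pow_left 2 h6
    apply h5.dvd_of_dvd_mul_left
    rw [h1]; exact h4
  have hb : m / p ^ m.factorization p ∣ m := Dvd.intro_left _ h1
  rw [Z_pat_comm, Z_sum_conv]
  have h5 : ∑ z, ((pat m true (R ++ R') z : ℕ) : ℤ) *
      ∑ y, ((vp m p y : ℕ) : ℤ) * Z_W m (z + y) = 0 := by
    apply Finset.sum_eq_zero
    intro z _
    by_cases hx : pat m true (R ++ R') z = 0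
    · rw [hx]; simp
    · rw [Z_key m p _ _ hp hp3 h2 h1 ⟨_, rfl⟩ h3 hb4 z, mul_zero]
      apply Z_pat_supp m _ hb true (fun _ => hb4) (R ++ R') _ z hx
      intro q hq
      have hq0 : q ∈ R ++ p :: R' := by
        rw [List.mem_append] at hq ⊢
        rcases hq with h | h
        · exact Or.inl h
        · exact Or.inr (List.mem_cons_of_mem _ h)
      obtain ⟨hq1, hq2, hq3⟩ := hR q hq0
      refine ⟨hq1.pos, ?_⟩
      have h6 : q ∣ p ^ m.factorization p * (m / p ^ m.factorization p) := h1.symm ▸ hq3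
      rcases (hq1.dvd_mul).1 h6 with h7 | h7
      · exfalso
        have h8 := hq1.dvd_of_dvd_pow h7
        rw [Nat.prime_dvd_prime_iff_eq hq1 hp] at h8
        rw [h8] at hq
        exact hpR hq
      · exact h7
  rw [h5, mul_zero]

/-! ### the stage four -/

lemma Z_units4 : ∀ u : (ZMod 4)ˣ, u = 1 ∨ u = -1 := by decide

lemma Z_W_four (m : ℕ) [NeZero m] (h4 : 4 ∣ m) : Z_W m (LP.emb 4 m 1) < 0 := by
  have hm : 0 < m := Nat.pos_of_ne_zero (NeZero.ne m)
  obtain ⟨e, he⟩ := id h4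
  have he0 : 0 < e := by omega
  have hme : m / 4 = e := by rw [he]; exact Nat.mul_div_cancel_left _ (by norm_num)
  have hmz : (m : ℤ) = 4 * e := by exact_mod_cast he
  unfold Z_W
  have h1 : ∀ t : (ZMod m)ˣ, ZMod.χ₄ (((t : ZMod m).val : ℕ) : ZMod 4) *
      saw m ((t : ZMod m) * LP.emb 4 m 1) = -(2 * e) := by
    intro t
    rw [mul_emb h4, mul_one, Z_chi_cast m _ h4]
    have h2 : ZMod.castHom h4 (ZMod 4) (t : ZMod m) =
        ((ZMod.unitsMap h4 t : (ZMod 4)ˣ) : ZMod 4) := by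
      rw [ZMod.unitsMap_def]
      rfl
    have hsaw : ∀ y : ZMod 4, y ≠ 0 → saw m (LP.emb 4 m y) = 2 * (y.val * e : ℕ) - m := by
      intro y hy
      unfold saw
      rw [if_neg, emb_val h4, hme]
      intro h
      exact hy (emb_injective h4 (h.trans emb_zero.symm))
    rw [h2]
    rcases Z_units4 (ZMod.unitsMap h4 t) with h | h
    · rw [h, hsaw _ (by decide)]
      have h3 : (((1 : (ZMod 4)ˣ) : ZMod 4)).val = 1 := by decide
      have h5 : ZMod.χ₄ (((1 : (ZMod 4)ˣ) : ZMod 4)) = 1 := by decide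
      rw [h3, h5]
      push_cast
      linarith
    · rw [h, hsaw _ (by decide)]
      have h3 : (((-1 : (ZMod 4)ˣ) : ZMod 4)).val = 3 := by decide
      have h5 : ZMod.χ₄ (((-1 : (ZMod 4)ˣ) : ZMod 4)) = -1 := by decide
      rw [h3, h5]
      push_cast
      linarith
  rw [Finset.sum_congr rfl fun t _ => h1 t, Finset.sum_const, nsmul_eq_mul]
  have h6 : (0 : ℤ) < (Finset.univ : Finset (ZMod m)ˣ).card := by
    exact_mod_cast Finset.card_pos.2 ⟨1, Finset.mem_univ _⟩
  have h7 : (0 : ℤ) < e := by exact_mod_cast he0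
  nlinarith

theorem G4_four (m : ℕ) [NeZero m] (h4 : 4 ∣ m) (c : ZMod m → ℤ)
    (hmax : ∀ x, anti c x ≠ 0 → addOrderOf x ≤ 4) (h : G4 m c = 0) :
    ∀ x, addOrderOf x = 4 → anti c x = 0 := by
  classical
  have hm : m ≠ 0 := NeZero.ne m
  have hm0 : 0 < m := Nat.pos_of_ne_zero hm
  set q : ZMod m := LP.emb 4 m 1 with hq
  have hord : ∀ x : ZMod m, addOrderOf x = 4 → x = q ∨ x = -q := by
    intro x hx
    obtain ⟨z, hz⟩ := exists_emb x hx
    rcases Z_units4 z with h1 | h1
    · left; rw [← hz, h1, hq, Units.val_one]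
    · right; rw [← hz, h1, hq, Units.val_neg, Units.val_one, emb_neg h4]
  have hqord : addOrderOf q = 4 := by
    have := addOrderOf_emb (m := m) h4 (1 : (ZMod 4)ˣ)
    rwa [Units.val_one] at this
  have hqne : q ≠ -q := by
    intro h1
    have h2 : 2 • q = 0 := by
      rw [two_nsmul]
      nth_rewrite 2 [h1]
      exact add_neg_cancel q
    have h3 := addOrderOf_dvd_iff_nsmul_eq_zero.2 h2
    rw [hqord] at h3
    exact absurd (Nat.le_of_dvd (by norm_num) h3) (by norm_num)
  have hantineg : ∀ x : ZMod m, anti c (-x) = - anti c x := by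
    intro x; unfold anti; rw [neg_neg]; ring
  have hzero : ∀ x : ZMod m, addOrderOf x ≠ 4 → anti c x * Z_W m x = 0 := by
    intro x hx
    by_cases h0 : anti c x = 0
    · rw [h0, zero_mul]
    · have h1 := hmax x h0
      have h2 : 0 < addOrderOf x := by
        have := addOrderOf_dvd' x
        exact Nat.pos_of_dvd_of_pos this hm0
      have h3 : addOrderOf x = 1 ∨ addOrderOf x = 2 ∨ addOrderOf x = 3 := by omega
      rcases h3 with h3 | h3 | h3
      · exfalso
        apply h0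
        rw [AddMonoid.addOrderOf_eq_one_iff] at h3
        rw [h3]; unfold anti; simp
      · exfalso
        apply h0
        have h5 := addOrderOf_nsmul_eq_zero x
        rw [h3, two_nsmul] at h5
        have h6 : -x = x := neg_eq_of_add_eq_zero_left h5
        unfold anti
        rw [h6, sub_self]
      · have h11 : 2 ^ m.factorization 2 * (m / 2 ^ m.factorization 2) = m :=
          Nat.ordProj_mul_ordCompl_eq_self m 2
        have h12 : Nat.Coprime (2 ^ m.factorization 2) (m / 2 ^ m.factorization 2) :=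
          (Nat.coprime_ordCompl Nat.prime_two hm).pow_left _
        have h13 : 4 ∣ 2 ^ m.factorization 2 := by
          have : 2 ≤ m.factorization 2 :=
            (Nat.prime_two.pow_dvd_iff_le_factorization hm).1 (by simpa using h4)
          exact (pow_dvd_pow 2 this)
        have h14 : Nat.Coprime 3 (2 ^ m.factorization 2) :=
          Nat.Coprime.pow_right _ (by norm_num)
        have h15 : 3 ∣ m / 2 ^ m.factorization 2 := by
          apply h14.dvd_of_dvd_mul_left
          rw [h11, ← h3]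
          exact addOrderOf_dvd' x
        rw [Z_W_odd m _ _ h4 h12 h11 h13 h14 x, mul_zero]
        rw [← nsmul_eq_mul]
        rw [← addOrderOf_dvd_iff_nsmul_eq_zero, h3]
        exact h15
  have hsum : G4 m c = 2 * (anti c q * Z_W m q) := by
    rw [Z_G4]
    have h1 : ∑ x, anti c x * Z_W m x = ∑ x ∈ ({q, -q} : Finset (ZMod m)), anti c x * Z_W m x := by
      symm
      apply Finset.sum_subset (Finset.subset_univ _)
      intro x _ hx
      apply hzero
      intro h2
      apply hx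
      rw [Finset.mem_insert, Finset.mem_singleton]
      exact hord x h2
    rw [h1, Finset.sum_pair hqne, hantineg, Z_W_neg]
    ring
  rw [h] at hsum
  have hW := Z_W_four m h4
  rw [← hq] at hW
  have h5 : anti c q = 0 := by
    have h6 : anti c q * Z_W m q = 0 := by linarith
    rcases mul_eq_zero.1 h6 with h7 | h7
    · exact h7
    · exact absurd h7 hW.ne
  intro x hx
  rcases hord x hx with h1 | h1
  · rw [h1, h5]
  · rw [h1, hantineg, h5, neg_zero]

end Pool.Agent.helper76.MC
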